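import Pool.Agent.PQP.StmtsV
import Pool.Agent.Helper55_FLX.Sym

/-!
# Squad PQP, row POT: potentials
-/

set_option autoImplicit false

open scoped InnerProductSpace Topology ContDiff Manifold
open MeasureTheory Filter Set

noncomputable section

namespace Pool.Agent.PQP.H10

open Pool.Agent.Helper42_Paneitz Pool.Agent.Helper82_Vir Pool.Agent.FLX

theorem neg_log_two_le_ell (x y : S4) : - Real.log 2 ≤ ell x y := by
  unfold ell
  have h1 : |⟪(x : E5), (y : E5)⟫_ℝ| ≤ ‖(x : E5)‖ * ‖(y : E5)‖ := abs_real_inner_le_norm _ _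
  rw [S4_norm, S4_norm, one_mul] at h1
  have h2 := (abs_le.1 h1)
  have h3 : Real.log (1 - ⟪(x : E5), (y : E5)⟫_ℝ) ≤ Real.log 2 := by
    rcases (sub_nonneg.2 h2.2).lt_or_eq with h | h
    · exact Real.log_le_log h (by linarith [h2.1])
    · rw [← h, Real.log_zero]
      exact Real.log_nonneg (by norm_num)
  linarith

theorem pot_ (ker : KerStmt) (rea : ReaStmt) : PotStmt := by
  have hi := ker.1
  obtain ⟨c, hc⟩ := H55.ell_const
  have hm := msig_pos
  have hT : ∀ f : S4 → ℝ, Continuous f → ∀ x, pot f x = 6 * msig * K f x + c * avg f := by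
    intro f hf x
    have i1 := integrable_ell_mul (hi x) hf
    have i2 : Integrable (fun y => avg f * ell x y) sig := (hi x).const_mul _
    have e : (fun y => ell x y * (f y - avg f)) = fun y => ell x y * f y - avg f * ell x y := by
      funext y; ring
    unfold pot K
    rw [e, integral_sub i1 i2, integral_const_mul, hc]
    field_simp
    ring
  refine ⟨c, hc, fun f hf => ⟨?_, hT f hf, fun hd x => ?_⟩⟩
  · have h1 : pot f = fun x => 6 * msig * K f x + c * avg f := funext (hT f hf)
    rw [h1]
    exact ((continuous_const.mul (continuous_of_cks (rea f hf))).add continuous_const)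
  · have i1 := integrable_ell_mul (hi x) hf
    have i2 : Integrable (fun y => (- Real.log 2) * f y) sig := (integrable_cont hf).const_mul _
    have h1 : ∫ y, (- Real.log 2) * f y ∂sig ≤ ∫ y, ell x y * f y ∂sig :=
      integral_mono i2 i1 fun y =>
        mul_le_mul_of_nonneg_right (neg_log_two_le_ell x y) (hd.2.1 y).le
    rw [integral_const_mul, hd.2.2, mul_one] at h1
    exact h1

end Pool.Agent.PQP.H10
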